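import Pool.Agent.Helper52.BP.Sheet2

/-! # Rows ATOM, ATOM2 -/

set_option autoImplicit false

namespace Pool.Helper52.BP

open Finset

/-- row ATOM2 -/
theorem st_ATOM2 (hG : ST_GREEDY) (hC : ST_CHUNK) : ST_ATOM2 := by
  classical
  intro n N R q s F hNn hn hq hX hF ha
  rcases Nat.eq_zero_or_pos s with rfl | hs
  · exact ⟨fun p => p.2.elim0, fun _ => ⟨0, hq⟩, fun p => p.2.elim0, fun p => p.2.elim0,
      fun _ _ l => l.elim0⟩
  set at' : Fin n → Finset (Finset (Fin n)) := fun v => F.filter (fun X => v ∈ X) with hat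
  have ha1 : 0 < naF F := by
    unfold naF
    exact card_pos.2 ⟨at' ⟨0, hn⟩, mem_image.2 ⟨⟨0, hn⟩, mem_univ _, rfl⟩⟩
  have hN : 0 < N := lt_of_lt_of_le (by positivity) ha
  set Lo : Finset (Fin n) := univ.filter (fun v => (v : ℕ) < N) with hLo
  have hLoc : Lo.card = N := by
    have h1 : Lo = univ.map (Fin.castLEEmb hNn) := by
      ext v
      simp only [hLo, mem_filter, mem_univ, true_and, mem_map, Fin.castLEEmb_apply]
      constructor
      · intro hv
        exact ⟨⟨v, hv⟩, by ext; rfl⟩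
      · rintro ⟨u, rfl⟩
        exact u.2
    rw [h1, card_map, card_univ, Fintype.card_fin]
  set C : Fin n → Finset (Fin n) := fun v => Lo.filter (fun u => at' u = at' v) with hCd
  set G : Finset (Fin n) := Lo.filter (fun v => N ≤ 2 * naF F * (C v).card) with hGd
  have hfib : ∀ k ∈ univ.image at', 2 * naF F * ((Lo \ G).filter (fun v => at' v = k)).card ≤ N := by
    intro k _
    rcases ((Lo \ G).filter (fun v => at' v = k)).eq_empty_or_nonempty with h0 | ⟨v, hv⟩
    · rw [h0]; simp
    · rw [mem_filter, mem_sdiff] at hv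
      have h1 : ¬ N ≤ 2 * naF F * (C v).card := fun h => hv.1.2 (mem_filter.2 ⟨hv.1.1, h⟩)
      have h2 : (Lo \ G).filter (fun v => at' v = k) ⊆ C v := by
        intro u hu
        rw [mem_filter, mem_sdiff] at hu
        exact mem_filter.2 ⟨hu.1.1, hu.2.trans hv.2.symm⟩
      have h3 := Nat.mul_le_mul_left (2 * naF F) (card_le_card h2)
      omega
  have hsum : 2 * naF F * (Lo \ G).card ≤ naF F * N := by
    have h1 : (Lo \ G).card =
        ∑ k ∈ univ.image at', ((Lo \ G).filter (fun v => at' v = k)).card :=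
      card_eq_sum_card_fiberwise (fun v _ => by
        simp only [coe_image, coe_univ, Set.image_univ, Set.mem_range, exists_apply_eq_apply])
    rw [h1, mul_sum]
    refine (sum_le_sum hfib).trans (le_of_eq ?_)
    rw [sum_const, smul_eq_mul]
    rfl
  have hGc : N ≤ 2 * G.card := by
    have h1 : 2 * (Lo \ G).card ≤ N := by
      refine Nat.le_of_mul_le_mul_left ?_ ha1
      calc naF F * (2 * (Lo \ G).card) = 2 * naF F * (Lo \ G).card := by ring
        _ ≤ naF F * N := hsum
    have h2 : (Lo \ G).card + G.card = Lo.card := card_sdiff_add_card_eq_card (filter_subset _ _)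
    omega
  have hGne : G.Nonempty := card_pos.1 (by omega)
  obtain ⟨p, hpG, hp⟩ := hG n R q G F hGne (fun X hXF => by
    have h1 := Nat.mul_le_mul_left R (card_le_card (inter_subset_right (s₁ := G) (s₂ := X)))
    have h2 := hX X hXF
    have h3 : 2 * R * X.card = 2 * (R * X.card) := by ring
    omega) hF
  obtain ⟨e, hinj, he⟩ := hC n q s (fun j => C (p j)) (fun j => by
    have h1 : N ≤ 2 * naF F * (C (p j)).card := (mem_filter.1 (hpG j)).2
    refine Nat.le_of_mul_le_mul_left ?_ (by positivity : 0 < 2 * naF F)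
    calc 2 * naF F * (q * s) = q * s * (2 * naF F) := by ring
      _ ≤ N := ha
      _ ≤ _ := h1)
  have : Nonempty (Fin q) := ⟨⟨0, hq⟩⟩
  choose! jj hjj using hp
  refine ⟨e, jj, hinj, fun x => ?_, fun X hXF l hl => ?_⟩
  · have h1 := he x
    rw [hCd] at h1
    exact (mem_filter.1 (mem_filter.1 h1).1).2
  · have h1 := he (jj X, l)
    rw [hCd] at h1
    have h2 : at' (e (jj X, l)) = at' (p (jj X)) := (mem_filter.1 h1).2
    have h3 : X ∈ at' (e (jj X, l)) := mem_filter.2 ⟨hXF, hl⟩
    rw [h2] at h3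
    exact hjj X hXF (mem_filter.1 h3).2

theorem S33.naF_le {n : ℕ} (W : ℕ → Finset (Fin n)) (m : ℕ) : naF ((range m).image W) ≤ na W m := by
  classical
  unfold naF na
  have h : univ.image (fun v : Fin n => ((range m).image W).filter (fun X => v ∈ X)) =
      (univ.image (fun v : Fin n => (range m).filter (fun i => v ∈ W i))).image
        (fun I => I.image W) := by
    rw [image_image]
    refine image_congr fun v _ => ?_
    ext X
    simp only [mem_filter, mem_image, Function.comp_apply, mem_range]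
    constructor
    · rintro ⟨⟨i, hi, rfl⟩, hv⟩
      exact ⟨i, ⟨hi, hv⟩, rfl⟩
    · rintro ⟨i, ⟨hi, hv⟩, rfl⟩
      exact ⟨⟨i, hi, rfl⟩, hv⟩
  rw [h]
  exact card_image_le

/-- row ATOM -/
theorem st_ATOM (hG : ST_GREEDY) (hC : ST_CHUNK) : ST_ATOM := by
  classical
  intro n m N R q s W hNn hn _ hq hW hm ha
  obtain ⟨e, jj, h1, h2, h3⟩ := st_ATOM2 hG hC n N R q s ((range m).image W) hNn hn hq
    (fun X hX => by
      obtain ⟨i, hi, rfl⟩ := mem_image.1 hX
      exact hW i (mem_range.1 hi)) hm
    ((Nat.mul_le_mul_left (q * s) (Nat.mul_le_mul_left 2 (S33.naF_le W m))).trans ha)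
  exact ⟨e, fun i => jj (W i), h1, h2, fun i hi l =>
    h3 (W i) (mem_image.2 ⟨i, mem_range.2 hi, rfl⟩) l⟩

end Pool.Helper52.BP
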